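import Pool.Agent.H42.PEG.Final

/-!
# Parsing expression languages are not closed under concatenation

The negative answer to the question: there are parsing expression languages over a common finite
alphabet whose concatenation is generated by no parsing expression grammar. The right factor can
even be taken to be the regular language consisting of the empty word and all words starting with
a fixed letter.

Idea of the proof. A word codes a sequence of updates of a register of bits, each update replacing
`acc` by `a + x ^ 2 * acc` in the field with `2 ^ d` elements, where the multiplier `x` is a part of
the register which is given by a hint at the end of the word. The first language checks that a query
written at the beginning of the word agrees with the final contents of the register computed from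
the last hint; the concatenation with the second language lets one guess the hint. A grammar for the
concatenation would give a data structure for evaluating a polynomial over the field with dynamically
chosen coefficients, in which each update writes few cells and each query reads few cells; the
chronogram method together with cell sampling shows that there is none.
-/

set_option autoImplicit false

namespace Pool.Agent.Results.MP_bdbe41_lc.NotClosed

open Pool.Agent.H42.PEG

/-- There are a finite alphabet `T`, a letter `a` and parsing expression languages `L₁`, `L₂` over
`T` such that `L₂` consists of the empty word and the words starting with `a`, and such that the
concatenation `L₁ * L₂` is not a parsing expression language. -/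
theorem result : ∃ (T : Type) (_ : Fintype T) (a : T) (L₁ L₂ : Language T),
    IsPEL L₁ ∧ IsPEL L₂ ∧ (∀ w : List T, w ∈ L₂ ↔ w = [] ∨ ∃ v, w = a :: v) ∧
      ¬ IsPEL (L₁ * L₂) :=
  ⟨Sym, inferInstance, Sym.dollar, G1.lang, G2.lang, ⟨NT, inferInstance, G1, rfl⟩,
    ⟨NT2, inferInstance, G2, rfl⟩, mem_G2_iff, not_isPEL_mul⟩

end Pool.Agent.Results.MP_bdbe41_lc.NotClosed
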